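import Pool.Agent.N963.GN.Stm3

set_option autoImplicit false

/-!
# Division of a function of the Laguerre-Polya class by a zero (task C3 of `Pool.Agent.N963.GN.Stm3`)
-/

namespace Pool.Agent.N455.GN

open Complex Filter Topology Polynomial
open scoped ComplexConjugate
open Pool.Agent.N963.GN

lemma diff_aeval (P : ℝ[X]) : Differentiable ℂ (fun w : ℂ => aeval w P) := by
  have h : (fun w : ℂ => aeval w P) = fun w : ℂ => (P.map (algebraMap ℝ ℂ)).eval w := by
    funext w
    rw [Polynomial.aeval_def, Polynomial.eval_map]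
  rw [h]
  exact (P.map (algebraMap ℝ ℂ)).differentiable

/-- Uniform approximation on discs, from local uniform convergence. -/
lemma unif_ball {F : ℕ → ℂ → ℂ} {φ : ℂ → ℂ} (h : TendstoLocallyUniformly F φ atTop) (R ε : ℝ)
    (hε : 0 < ε) : ∀ᶠ N in atTop, ∀ z : ℂ, ‖z‖ ≤ R → ‖F N z - φ z‖ ≤ ε := by
  have h1 := (tendstoLocallyUniformly_iff_forall_isCompact.1 h) (Metric.closedBall 0 R)
    (isCompact_closedBall 0 R)
  rw [Metric.tendstoUniformlyOn_iff] at h1
  filter_upwards [h1 ε hε] with N hN z hz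
  have h2 := hN z (by simpa using hz)
  rw [dist_comm, dist_eq_norm] at h2
  exact h2.le

/-- Hurwitz: zeros of the limit are approximated by zeros. -/
lemma hurwitz {F : ℕ → ℂ → ℂ} {φ : ℂ → ℂ} (hF : ∀ N, Differentiable ℂ (F N)) (hφ : Differentiable ℂ φ)
    (hne : ∃ z, φ z ≠ 0) (h : TendstoLocallyUniformly F φ atTop) {a : ℂ} (ha : φ a = 0) {δ : ℝ}
    (hδ : 0 < δ) : ∀ᶠ N in atTop, ∃ w, F N w = 0 ∧ ‖w - a‖ ≤ δ := by
  -- a radius `r ≤ δ` with no zeros on the circle
  have han : AnalyticAt ℂ φ a := hφ.analyticAt a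
  have hev : ∀ᶠ z in 𝓝[≠] a, φ z ≠ 0 := by
    rcases han.eventually_eq_zero_or_eventually_ne_zero with h0 | h0
    · exfalso
      obtain ⟨z, hz⟩ := hne
      have h1 : AnalyticOnNhd ℂ φ Set.univ := fun w _ => hφ.analyticAt w
      have h2 := h1.eqOn_zero_of_preconnected_of_eventuallyEq_zero isPreconnected_univ
        (Set.mem_univ a) h0
      exact hz (h2 (Set.mem_univ z))
    · exact h0
  rw [eventually_nhdsWithin_iff, Metric.eventually_nhds_iff] at hev
  obtain ⟨ρ, hρ, hball⟩ := hev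
  set r : ℝ := min δ (ρ / 2) with hr
  have hr0 : 0 < r := lt_min hδ (by linarith)
  have hrδ : r ≤ δ := min_le_left _ _
  have hrρ : r < ρ := lt_of_le_of_lt (min_le_right _ _) (by linarith)
  have hsph : ∀ z ∈ Metric.sphere a r, φ z ≠ 0 := by
    intro z hz
    rw [Metric.mem_sphere] at hz
    refine hball (by rw [hz]; exact hrρ) ?_
    intro h0
    rw [Set.mem_singleton_iff] at h0
    rw [h0, dist_self] at hz
    linarith
  have hne' : (Metric.sphere a r).Nonempty := NormedSpace.sphere_nonempty.2 hr0.le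
  obtain ⟨z0, hz0, hmin⟩ := (isCompact_sphere a r).exists_isMinOn hne'
    (hφ.continuous.norm.continuousOn)
  set m : ℝ := ‖φ z0‖ with hm
  have hm0 : 0 < m := norm_pos_iff.2 (hsph z0 hz0)
  have hmin' : ∀ z ∈ Metric.sphere a r, m ≤ ‖φ z‖ := fun z hz => hmin hz
  filter_upwards [unif_ball h (‖a‖ + r) (m / 4) (by linarith)] with N hN
  by_contra hcon
  push Not at hcon
  have hin : ∀ z ∈ Metric.closedBall a r, ‖z‖ ≤ ‖a‖ + r := by
    intro z hz
    rw [Metric.mem_closedBall, dist_eq_norm] at hz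
    calc ‖z‖ = ‖a + (z - a)‖ := by ring_nf
      _ ≤ ‖a‖ + ‖z - a‖ := norm_add_le _ _
      _ ≤ ‖a‖ + r := by linarith
  have hnz : ∀ z ∈ Metric.closedBall a r, F N z ≠ 0 := by
    intro z hz h0
    have h1 := hcon z h0
    rw [Metric.mem_closedBall, dist_eq_norm] at hz
    linarith
  have hd : DiffContOnCl ℂ (fun z => (F N z)⁻¹) (Metric.ball a r) := by
    refine ⟨fun z hz => ?_, ?_⟩
    · exact ((hF N z).inv (hnz z (Metric.ball_subset_closedBall hz))).differentiableWithinAt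
    · rw [closure_ball a hr0.ne']
      exact ((hF N).continuous.continuousOn).inv₀ hnz
  have hbd := Complex.norm_le_of_forall_mem_frontier_norm_le (f := fun z => (F N z)⁻¹)
    Metric.isBounded_ball hd (C := 4 / (3 * m)) (z := a) (by
      intro z hz
      rw [frontier_ball a hr0.ne'] at hz
      have h1 := hmin' z hz
      have h2 := hN z (hin z (Metric.sphere_subset_closedBall hz))
      have h3 : 3 * m / 4 ≤ ‖F N z‖ := by
        have h4 : ‖φ z‖ ≤ ‖F N z - φ z‖ + ‖F N z‖ := by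
          calc ‖φ z‖ = ‖F N z - (F N z - φ z)‖ := by ring_nf
            _ ≤ ‖F N z‖ + ‖F N z - φ z‖ := norm_sub_le _ _
            _ = _ := by ring
        linarith
      have h5 : 0 < 3 * m / 4 := by linarith
      rw [norm_inv]
      calc ‖F N z‖⁻¹ ≤ (3 * m / 4)⁻¹ := inv_anti₀ h5 h3
        _ = 4 / (3 * m) := by rw [inv_div])
    (subset_closure (Metric.mem_ball_self hr0))
  have h6 : ‖F N a‖ ≤ m / 4 := by
    have := hN a (by linarith)
    rwa [ha, sub_zero] at this
  have h7 : 0 < ‖F N a‖ := norm_pos_iff.2 (hnz a (Metric.mem_closedBall_self hr0.le))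
  simp only [norm_inv] at hbd
  have h8 : (m / 4)⁻¹ ≤ ‖F N a‖⁻¹ := inv_anti₀ h7 h6
  have h9 : (m / 4)⁻¹ = 4 / m := inv_div _ _
  rw [h9] at h8
  have h10 : 4 / m ≤ 4 / (3 * m) := h8.trans hbd
  rw [div_le_div_iff₀ hm0 (by linarith)] at h10
  linarith

theorem c3 : S_C3 := by
  intro φ hφ a0 ha0
  obtain ⟨hne, Q, hQ, hlim⟩ := hφ
  have hF : ∀ N, Differentiable ℂ (fun w : ℂ => aeval w (Q N)) := fun N => diff_aeval _
  have hφd : Differentiable ℂ φ := by
    have h1 := (tendstoLocallyUniformlyOn_univ.2 hlim).differentiableOn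
      (Eventually.of_forall fun N => (hF N).differentiableOn) isOpen_univ
    exact differentiableOn_univ.1 h1
  have hH : ∀ δ : ℝ, 0 < δ → ∀ᶠ N in atTop, ∃ x : ℝ, aeval (x : ℂ) (Q N) = 0 ∧ ‖(x : ℂ) - a0‖ ≤ δ := by
    intro δ hδ
    filter_upwards [hurwitz hF hφd hne hlim ha0 hδ] with N hN
    obtain ⟨w, hw, hwa⟩ := hN
    have him := hQ N w hw
    have hwr : ((w.re : ℝ) : ℂ) = w := Complex.ext (by simp) (by simp [him])
    exact ⟨w.re, by rw [hwr]; exact hw, by rw [hwr]; exact hwa⟩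
  have him : a0.im = 0 := by
    by_contra h0
    have h1 : 0 < |a0.im| / 2 := by have := abs_pos.2 h0; linarith
    obtain ⟨N, x, -, hx⟩ := (hH _ h1).exists
    have h2 := (Complex.abs_im_le_norm ((x : ℂ) - a0)).trans hx
    simp at h2
    linarith
  refine ⟨him, dslope φ a0, ⟨?_, ?_⟩, ?_⟩
  · obtain ⟨z, hz⟩ := hne
    refine ⟨z, fun h0 => hz ?_⟩
    have h1 := sub_smul_dslope φ a0 z
    rw [h0, smul_zero, ha0, sub_zero] at h1
    exact h1.symm
  swap
  · intro s
    have h1 := sub_smul_dslope φ a0 s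
    rw [ha0, sub_zero, smul_eq_mul] at h1
    exact h1.symm
  -- the approximating sequence
  have hψd : Differentiable ℂ (dslope φ a0) := by
    have h1 := (Complex.differentiableOn_dslope (s := Set.univ) (c := a0) (f := φ) univ_mem).2
      hφd.differentiableOn
    exact differentiableOn_univ.1 h1
  have hex : ∀ k : ℕ, ∃ N : ℕ, ∃ x : ℝ, aeval (x : ℂ) (Q N) = 0 ∧ ‖(x : ℂ) - a0‖ ≤ 1 / ((k : ℝ) + 1) ∧
      ∀ z : ℂ, ‖z‖ ≤ k → ‖aeval z (Q N) - φ z‖ ≤ 1 / ((k : ℝ) + 1) := by
    intro k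
    have hk : (0 : ℝ) < 1 / ((k : ℝ) + 1) := by positivity
    obtain ⟨N, ⟨x, hx1, hx2⟩, hN⟩ := ((hH _ hk).and (unif_ball hlim k _ hk)).exists
    exact ⟨N, x, hx1, hx2, hN⟩
  choose N x hx1 hx2 hx3 using hex
  have hdiv : ∀ k, ∃ P : ℝ[X], Q (N k) = (X - C (x k)) * P := by
    intro k
    have h1 : (Q (N k)).IsRoot (x k) := by
      have h2 := hx1 k
      have h3 : aeval ((x k : ℝ) : ℂ) (Q (N k)) = (((Q (N k)).eval (x k) : ℝ) : ℂ) := by
        rw [Polynomial.aeval_def]
        exact Polynomial.eval₂_at_apply (algebraMap ℝ ℂ) (x k)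
      rw [h3] at h2
      exact_mod_cast h2
    obtain ⟨P, hP⟩ := Polynomial.dvd_iff_isRoot.2 h1
    exact ⟨P, hP⟩
  choose P hP using hdiv
  have hev : ∀ k (w : ℂ), aeval w (Q (N k)) = (w - x k) * aeval w (P k) := by
    intro k w
    rw [hP k]
    simp
  refine ⟨P, ?_, ?_⟩
  · intro k w hw
    apply hQ (N k) w
    rw [hev, hw, mul_zero]
  · rw [tendstoLocallyUniformly_iff_forall_isCompact]
    intro K hK
    obtain ⟨R0, hR0⟩ := hK.isBounded.subset_closedBall (0 : ℂ)
    set R : ℝ := max R0 0 + ‖a0‖ + 2 with hR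
    have hRpos : 0 < R := by positivity
    have hRa : ‖a0‖ + 2 ≤ R := by have := le_max_right R0 0; linarith
    obtain ⟨M, hM⟩ := (isCompact_closedBall (0 : ℂ) R).exists_bound_of_continuousOn
      (f := φ) hφd.continuous.continuousOn
    have hM0 : 0 ≤ M := (norm_nonneg _).trans (hM 0 (Metric.mem_closedBall_self hRpos.le))
    rw [Metric.tendstoUniformlyOn_iff]
    intro ε hε
    have hbound : ∀ᶠ k : ℕ in atTop, R ≤ k ∧ (1 + M) * (1 / ((k : ℝ) + 1)) < ε := by
      have h1 : Tendsto (fun k : ℕ => (1 + M) * (1 / ((k : ℝ) + 1))) atTop (𝓝 ((1 + M) * 0)) :=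
        tendsto_one_div_add_atTop_nhds_zero_nat.const_mul _
      rw [mul_zero] at h1
      exact (tendsto_natCast_atTop_atTop.eventually_ge_atTop R).and (h1.eventually_lt_const hε)
    filter_upwards [hbound] with k hk z hz
    obtain ⟨hkR, hkε⟩ := hk
    rw [dist_comm, dist_eq_norm]
    have hk1 : 1 / ((k : ℝ) + 1) ≤ 1 := by
      rw [div_le_one (by positivity)]
      have : (0 : ℝ) ≤ k := Nat.cast_nonneg k
      linarith
    have hzR : z ∈ closure (Metric.ball (0 : ℂ) R) := by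
      rw [closure_ball (0 : ℂ) hRpos.ne']
      have h1 := hR0 hz
      rw [Metric.mem_closedBall, dist_zero_right] at h1 ⊢
      have h2 := le_max_left R0 0
      have h3 := norm_nonneg a0
      linarith
    refine lt_of_le_of_lt (Complex.norm_le_of_forall_mem_frontier_norm_le
      (f := fun z => aeval z (P k) - dslope φ a0 z) (U := Metric.ball (0 : ℂ) R)
      Metric.isBounded_ball ((diff_aeval (P k)).sub hψd).diffContOnCl
      (C := (1 + M) * (1 / ((k : ℝ) + 1))) ?_ hzR) hkε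
    intro w hw
    rw [frontier_ball (0 : ℂ) hRpos.ne', mem_sphere_zero_iff_norm] at hw
    have h1 := hx3 k w (by rw [hw]; exact hkR)
    have h2 : ‖φ w‖ ≤ M := hM w (by rw [Metric.mem_closedBall, dist_zero_right, hw])
    have h3 : 2 ≤ ‖w - a0‖ := by
      have := norm_sub_norm_le w a0
      linarith
    have h4 : 1 ≤ ‖w - x k‖ := by
      have h5 : ‖w - a0‖ ≤ ‖w - x k‖ + ‖(x k : ℂ) - a0‖ := by
        calc ‖w - a0‖ = ‖(w - x k) + ((x k : ℂ) - a0)‖ := by ring_nf
          _ ≤ _ := norm_add_le _ _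
      have h6 := (hx2 k).trans hk1
      linarith
    have h7 := sub_smul_dslope φ a0 w
    rw [ha0, sub_zero, smul_eq_mul] at h7
    have h8 : (w - x k) * (w - a0) * (aeval w (P k) - dslope φ a0 w) =
        (aeval w (Q (N k)) - φ w) * (w - a0) + φ w * ((x k : ℂ) - a0) := by
      rw [hev k w, ← h7]
      ring
    have h9 : ‖w - x k‖ * ‖w - a0‖ * ‖aeval w (P k) - dslope φ a0 w‖ ≤
        1 / ((k : ℝ) + 1) * ‖w - a0‖ + M * (1 / ((k : ℝ) + 1)) := by
      rw [← norm_mul, ← norm_mul, h8]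
      refine (norm_add_le _ _).trans ?_
      rw [norm_mul, norm_mul]
      have := hx2 k
      gcongr
    set e : ℝ := 1 / ((k : ℝ) + 1)
    have he : 0 < e := by positivity
    set D : ℝ := ‖aeval w (P k) - dslope φ a0 w‖
    have hD : 0 ≤ D := norm_nonneg _
    have h10 : ‖w - a0‖ * D ≤ ‖w - x k‖ * ‖w - a0‖ * D := by
      have : 0 ≤ ‖w - a0‖ * D := by positivity
      nlinarith
    have h11 : ‖w - a0‖ * D ≤ ‖w - a0‖ * ((1 + M) * e) := by
      calc ‖w - a0‖ * D ≤ e * ‖w - a0‖ + M * e := h10.trans h9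
        _ ≤ e * ‖w - a0‖ + (M * e) * ‖w - a0‖ := by
            have : 0 ≤ M * e := by positivity
            nlinarith
        _ = _ := by ring
    exact le_of_mul_le_mul_left h11 (by linarith)

end Pool.Agent.N455.GN
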