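import Pool.Agent.N963.GN.StmM

set_option autoImplicit false

/-!
# Upper bounds for the mean square of a cusp form on rays (task M2a of `Pool.Agent.N963.GN.StmM`)
-/

namespace Pool.Agent.N455.GN

open Complex Filter Topology MeasureTheory
open scoped ComplexConjugate
open Pool.Agent.N963.GN

/-- the symmetry of the kernel in the strip -/
theorem herm_strip' {K : ℂ → ℂ} {α : ℝ} (pos : 0 < α)
    (diff : ∀ w : ℂ, |w.im| < α → DifferentiableAt ℂ K w)
    (herm : ∀ u : ℝ, K ((-u : ℝ) : ℂ) = conj (K (u : ℂ))) (w : ℂ) (hw : |w.im| < α) :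
    K (-conj w) = conj (K w) := by
  set U : Set ℂ := {w | |w.im| < α} with hU
  have hUo : IsOpen U := isOpen_lt (by fun_prop) continuous_const
  have hUc : Convex ℝ U := by
    have : U = Complex.imLm ⁻¹' Metric.ball 0 α := by
      ext w; simp [hU]
    rw [this]
    exact (convex_ball _ _).linear_preimage _
  have h1 : DifferentiableOn ℂ (conj ∘ (fun w => K (-w)) ∘ conj) U := by
    intro z hz
    have h2 : DifferentiableAt ℂ (fun w => K (-w)) (conj z) := by
      have h3 : DifferentiableAt ℂ K (-(conj z)) := diff _ (by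
        have hz' : |z.im| < α := hz
        simpa using hz')
      exact h3.comp (conj z) (differentiable_neg _)
    have h4 := h2.conj_conj
    rw [Complex.conj_conj] at h4
    exact h4.differentiableWithinAt
  have h2 : DifferentiableOn ℂ K U := fun z hz => (diff z hz).differentiableWithinAt
  have h3 : Set.EqOn (conj ∘ (fun w => K (-w)) ∘ conj) K U := by
    refine (h1.analyticOnNhd hUo).eqOn_of_preconnected_of_frequently_eq
      (h2.analyticOnNhd hUo) hUc.isPreconnected (z₀ := 0) (by simp [hU, pos]) ?_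
    have h5 : Tendsto (fun u : ℝ => (u : ℂ)) (𝓝[≠] (0 : ℝ)) (𝓝[≠] (0 : ℂ)) := by
      refine tendsto_nhdsWithin_iff.2 ⟨?_, ?_⟩
      · have : Tendsto (fun u : ℝ => (u : ℂ)) (𝓝 0) (𝓝 ((0 : ℝ) : ℂ)) :=
          Complex.continuous_ofReal.tendsto 0
        rw [Complex.ofReal_zero] at this
        exact this.mono_left nhdsWithin_le_nhds
      · filter_upwards [self_mem_nhdsWithin] with u hu
        simpa using hu
    refine h5.frequently ?_
    refine (Eventually.of_forall fun u => ?_).frequently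
    have h6 := herm u
    simp only [Function.comp_apply, Complex.conj_ofReal]
    rw [← Complex.ofReal_neg, h6, Complex.conj_conj]
  have h4 := h3 hw
  simp only [Function.comp_apply] at h4
  rw [← h4, Complex.conj_conj]

section
variable {N k : ℕ} {F : ℂ → ℂ} {b : ℕ → ℂ} {κ : ℂ}

/-- the terms of the Fourier expansion -/
lemma term_le {B : ℝ} (hB : ∀ n : ℕ, 1 ≤ n → ‖b n‖ ≤ B * (n : ℝ) ^ k)
    {c : ℝ} (τ : ℂ) (hτ : c ≤ τ.im) (n : ℕ) :
    ‖b (n + 1) * cexp (2 * Real.pi * I * ((n + 1 : ℕ) : ℂ) * τ)‖ ≤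
      Real.exp (-(2 * Real.pi * τ.im)) *
        (B * (((n : ℝ) + 1) ^ k * Real.exp (-(2 * Real.pi * c) * n))) := by
  rw [norm_mul, Complex.norm_exp]
  have h1 : (2 * Real.pi * I * ((n + 1 : ℕ) : ℂ) * τ).re = -(2 * Real.pi * ((n : ℝ) + 1) * τ.im) := by
    simp [Complex.mul_re, Complex.mul_im]
  rw [h1]
  have h2 := hB (n + 1) (by omega)
  push_cast at h2
  have h3 : Real.exp (-(2 * Real.pi * ((n : ℝ) + 1) * τ.im)) ≤
      Real.exp (-(2 * Real.pi * τ.im)) * Real.exp (-(2 * Real.pi * c) * n) := by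
    rw [← Real.exp_add]
    apply Real.exp_le_exp.2
    have : 2 * Real.pi * c * n ≤ 2 * Real.pi * τ.im * n := by
      have := Real.pi_pos
      gcongr
    nlinarith
  calc ‖b (n + 1)‖ * Real.exp (-(2 * Real.pi * ((n : ℝ) + 1) * τ.im))
      ≤ (B * ((n : ℝ) + 1) ^ k) *
        (Real.exp (-(2 * Real.pi * τ.im)) * Real.exp (-(2 * Real.pi * c) * n)) :=
        mul_le_mul h2 h3 (Real.exp_pos _).le ((norm_nonneg _).trans h2)
    _ = _ := by ring

lemma summ {c : ℝ} (hc : 0 < c) (B : ℝ) (k : ℕ) :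
    Summable (fun n : ℕ => B * (((n : ℝ) + 1) ^ k * Real.exp (-(2 * Real.pi * c) * n))) := by
  apply Summable.mul_left
  have hr : 0 < 2 * Real.pi * c := by positivity
  have h1 := Real.summable_pow_mul_exp_neg_nat_mul k hr
  have h2 := (summable_nat_add_iff 1).2 h1
  have h3 := h2.mul_left (Real.exp (2 * Real.pi * c))
  refine h3.congr fun n => ?_
  push_cast
  have : Real.exp (-(2 * Real.pi * c) * n) = Real.exp (2 * Real.pi * c) *
      Real.exp (-(2 * Real.pi * c) * ((n : ℝ) + 1)) := by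
    rw [← Real.exp_add]; congr 1; ring
  rw [this]
  ring

/-- exponential decay -/
lemma decay (h : MF N k F b κ) {c : ℝ} (hc : 0 < c) : ∃ C : ℝ, 0 ≤ C ∧ ∀ τ : ℂ, c ≤ τ.im →
    ‖F τ‖ ≤ C * Real.exp (-(2 * Real.pi * τ.im)) := by
  obtain ⟨B, hB0, hB⟩ := h.bb
  have hs := summ hc B k
  refine ⟨∑' n : ℕ, B * (((n : ℝ) + 1) ^ k * Real.exp (-(2 * Real.pi * c) * n)),
    tsum_nonneg fun n => by positivity, fun τ hτ => ?_⟩
  have h1 := h.sum τ (lt_of_lt_of_le hc hτ)
  have h2 := hs.mul_left (Real.exp (-(2 * Real.pi * τ.im)))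
  have h3 := term_le hB τ hτ
  have h4 : Summable (fun n : ℕ => ‖b (n + 1) * cexp (2 * Real.pi * I * ((n + 1 : ℕ) : ℂ) * τ)‖) :=
    Summable.of_nonneg_of_le (fun n => norm_nonneg _) h3 h2
  rw [← h1.tsum_eq]
  calc _ ≤ ∑' n : ℕ, ‖b (n + 1) * cexp (2 * Real.pi * I * ((n + 1 : ℕ) : ℂ) * τ)‖ :=
        norm_tsum_le_tsum_norm h4
    _ ≤ ∑' n : ℕ, Real.exp (-(2 * Real.pi * τ.im)) *
        (B * (((n : ℝ) + 1) ^ k * Real.exp (-(2 * Real.pi * c) * n))) := h4.tsum_le_tsum h3 h2
    _ = _ := by rw [tsum_mul_left, mul_comm]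

/-- holomorphy -/
lemma diffF (h : MF N k F b κ) (τ : ℂ) (hτ : 0 < τ.im) : DifferentiableAt ℂ F τ := by
  obtain ⟨B, hB0, hB⟩ := h.bb
  have hc : 0 < τ.im / 2 := by linarith
  set U : Set ℂ := {z | τ.im / 2 < z.im} with hU
  have hUo : IsOpen U := isOpen_lt continuous_const Complex.continuous_im
  have h1 : DifferentiableOn ℂ (fun z => ∑' n : ℕ, b (n + 1) *
      cexp (2 * Real.pi * I * ((n + 1 : ℕ) : ℂ) * z)) U := by
    refine differentiableOn_tsum_of_summable_norm (summ hc B k) (fun n => ?_) hUo (fun n z hz => ?_)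
    · apply Differentiable.differentiableOn
      fun_prop
    · refine (term_le hB z (le_of_lt hz) n).trans ?_
      have h2 : Real.exp (-(2 * Real.pi * z.im)) ≤ 1 := by
        rw [Real.exp_le_one_iff]
        have hz' : τ.im / 2 < z.im := hz
        have := Real.pi_pos
        nlinarith [mul_pos this (hc.trans hz')]
      have h3 : 0 ≤ B * (((n : ℝ) + 1) ^ k * Real.exp (-(2 * Real.pi * (τ.im / 2)) * n)) := by
        positivity
      exact mul_le_of_le_one_left h3 h2
  have h2 : U ∈ 𝓝 τ := hUo.mem_nhds (by show τ.im / 2 < τ.im; linarith)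
  have h3 := h1.differentiableAt h2
  refine h3.congr_of_eventuallyEq ?_
  filter_upwards [h2] with z hz
  have hz' : τ.im / 2 < z.im := hz
  exact (h.sum z (hc.trans hz')).tsum_eq.symm

lemma arg_im (N : ℕ) (w : ℂ) : (I * cexp w / (Real.sqrt N : ℝ)).im =
    Real.exp w.re * Real.cos w.im / Real.sqrt N := by
  rw [Complex.div_ofReal_im, Complex.mul_im, Complex.exp_re]
  simp

lemma diffK (h : MF N k F b κ) (w : ℂ) (hw : |w.im| < Real.pi / 2) :
    DifferentiableAt ℂ (Km N k F κ) w := by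
  have hN : (0 : ℝ) < Real.sqrt N := Real.sqrt_pos.2 (by exact_mod_cast h.hN)
  have h1 : 0 < (I * cexp w / (Real.sqrt N : ℝ)).im := by
    rw [arg_im]
    have : 0 < Real.cos w.im := Real.cos_pos_of_mem_Ioo ⟨by linarith [(abs_lt.1 hw).1], (abs_lt.1 hw).2⟩
    positivity
  have h2 := diffF h _ h1
  have h3 : DifferentiableAt ℂ (fun w : ℂ => I * cexp w / (Real.sqrt N : ℝ)) w := by fun_prop
  have h4 : DifferentiableAt ℂ (fun w : ℂ => F (I * cexp w / (Real.sqrt N : ℝ))) w :=
    DifferentiableAt.comp (f := fun w : ℂ => I * cexp w / (Real.sqrt N : ℝ)) (g := F) w h2 h3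
  unfold Km
  exact (h4.const_mul κ).mul (by fun_prop)

lemma Km_sq (N k : ℕ) (F : ℂ → ℂ) (κ w : ℂ) : ‖Km N k F κ w‖ ^ 2 =
    ‖κ‖ ^ 2 * ‖F (I * cexp w / (Real.sqrt N : ℝ))‖ ^ 2 * Real.exp (k * w.re) := by
  unfold Km
  rw [norm_mul, norm_mul, Complex.norm_exp, mul_pow, mul_pow, ← Real.exp_nat_mul]
  congr 2
  have : ((k : ℂ) * w / 2).re = k * w.re / 2 := by
    rw [show (k : ℂ) * w / 2 = ((k / 2 : ℝ) : ℂ) * w by push_cast; ring, Complex.re_ofReal_mul]
    ring
  rw [this]
  push_cast
  ring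

end

theorem m2a : S_M2a := by
  intro N k F b κ h
  obtain ⟨B, hB0, hB⟩ := h.bound
  have hN1 : (1 : ℝ) ≤ N := by exact_mod_cast h.hN
  set q : ℝ := Real.sqrt N with hq
  have hq1 : 1 ≤ q := by rw [hq]; exact Real.one_le_sqrt.2 hN1
  have hq0 : 0 < q := by linarith
  obtain ⟨C2, hC20, hC2⟩ := decay h (c := 1 / (2 * q)) (by positivity)
  set C1 : ℝ := ‖κ‖ ^ 2 * B * (2 * q) ^ k with hC1
  have hC10 : 0 ≤ C1 := by positivity
  set a : ℝ := 2 * Real.pi / q with ha
  have ha0 : 0 < a := by have := Real.pi_pos; positivity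
  set C4 : ℝ := ‖κ‖ ^ 2 * C2 ^ 2 * ((k + 1).factorial / a ^ (k + 1)) with hC4
  have hC40 : 0 ≤ C4 := by positivity
  refine ⟨Real.pi * C1 + 2 * C1 + 2 * C4 + 1, 1 / 3, by have := Real.pi_pos; positivity, by norm_num,
    by norm_num, fun δ hδ hδ1 σ hσ => ?_⟩
  have hpi := Real.pi_pos
  set D : ℝ := δ ^ (-(k : ℝ)) with hD
  have hD' : D = (δ ^ k)⁻¹ := by rw [hD, Real.rpow_neg hδ.le, Real.rpow_natCast]
  have hD0 : 0 < D := Real.rpow_pos_of_pos hδ _
  set L : ℝ := Real.log (1 / δ) with hL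
  have hL1 : 1 ≤ L := by
    rw [hL, Real.le_log_iff_exp_le (by positivity)]
    have h1 : (3 : ℝ) ≤ 1 / δ := by
      rw [le_div_iff₀ hδ]; linarith
    have := Real.exp_one_lt_d9
    linarith
  have hLe : Real.exp L = 1 / δ := Real.exp_log (by positivity)
  have hsin : δ / 2 ≤ Real.sin δ := by
    have h1 := Real.mul_le_sin hδ.le (by linarith [Real.pi_gt_three])
    have h2 : 1 / 2 ≤ 2 / Real.pi := by
      rw [div_le_div_iff₀ (by norm_num) hpi]; linarith [Real.pi_le_four]
    nlinarith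
  have hsin0 : 0 < Real.sin δ := by linarith
  -- the point
  set W : ℝ → ℂ := fun u => (u : ℂ) + (σ * (Real.pi / 2 - δ) : ℝ) * I with hW
  have hWre : ∀ u, (W u).re = u := by intro u; simp [hW]
  have hWim : ∀ u, (W u).im = σ * (Real.pi / 2 - δ) := by intro u; simp [hW]
  have hcos : Real.cos (σ * (Real.pi / 2 - δ)) = Real.sin δ := by
    rcases hσ with h1 | h1
    · rw [h1, one_mul, Real.cos_pi_div_two_sub]
    · rw [h1, neg_one_mul, Real.cos_neg, Real.cos_pi_div_two_sub]
  have hWs : ∀ u, |(W u).im| < Real.pi / 2 := by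
    intro u
    rw [hWim, abs_mul]
    have h1 : |σ| = 1 := by rcases hσ with h1 | h1 <;> simp [h1]
    rw [h1, one_mul, abs_of_pos (by linarith [Real.pi_gt_three])]
    linarith
  have hy : ∀ u, (I * cexp (W u) / (Real.sqrt N : ℝ)).im = Real.exp u * Real.sin δ / q := by
    intro u
    rw [arg_im, hWre, hWim, hcos]
  have hy0 : ∀ u, 0 < Real.exp u * Real.sin δ / q := fun u => by positivity
  -- bound A
  have hA : ∀ u, ‖Km N k F κ (W u)‖ ^ 2 ≤ C1 * D := by
    intro u
    rw [Km_sq, hWre]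
    have h1 := hB (I * cexp (W u) / (Real.sqrt N : ℝ)) (by rw [hy]; exact hy0 u)
    rw [hy] at h1
    set f : ℝ := ‖F (I * cexp (W u) / (Real.sqrt N : ℝ))‖ ^ 2 with hf
    have hf0 : 0 ≤ f := by positivity
    have h2 : f * Real.exp (k * u) * δ ^ k ≤ B * (2 * q) ^ k := by
      have h3 : Real.exp (k * u) = Real.exp u ^ k := by rw [← Real.exp_nat_mul]
      have h4 : Real.exp u ^ k * δ ^ k ≤ (Real.exp u * Real.sin δ / q) ^ k * (2 * q) ^ k := by
        rw [← mul_pow, ← mul_pow]
        apply pow_le_pow_left₀ (by positivity)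
        have : Real.exp u * Real.sin δ / q * (2 * q) = Real.exp u * (2 * Real.sin δ) := by
          field_simp
        rw [this]
        gcongr
        linarith
      calc f * Real.exp (k * u) * δ ^ k = f * (Real.exp u ^ k * δ ^ k) := by rw [h3]; ring
        _ ≤ f * ((Real.exp u * Real.sin δ / q) ^ k * (2 * q) ^ k) := by gcongr
        _ = (f * (Real.exp u * Real.sin δ / q) ^ k) * (2 * q) ^ k := by ring
        _ ≤ B * (2 * q) ^ k := by gcongr
    rw [hD', hC1]
    have h5 : 0 < δ ^ k := by positivity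
    rw [← div_eq_mul_inv, le_div_iff₀ h5]
    calc ‖κ‖ ^ 2 * f * Real.exp (k * u) * δ ^ k = ‖κ‖ ^ 2 * (f * Real.exp (k * u) * δ ^ k) := by ring
      _ ≤ ‖κ‖ ^ 2 * (B * (2 * q) ^ k) := by gcongr
      _ = _ := by ring
  -- bound B
  have hBb : ∀ u, L ≤ u → ‖Km N k F κ (W u)‖ ^ 2 ≤ C4 * D * Real.exp (L - u) := by
    intro u hu
    rw [Km_sq, hWre]
    set E : ℝ := Real.exp u * δ with hE
    have hE1 : 1 ≤ E := by
      have h1 : 1 / δ ≤ Real.exp u := by rw [← hLe]; exact Real.exp_le_exp.2 hu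
      rw [div_le_iff₀ hδ] at h1
      exact h1
    have hyE : E / (2 * q) ≤ Real.exp u * Real.sin δ / q := by
      rw [div_le_div_iff₀ (by positivity) hq0, hE]
      have : Real.exp u * δ ≤ Real.exp u * (2 * Real.sin δ) := by gcongr; linarith
      nlinarith
    have hyc : 1 / (2 * q) ≤ (I * cexp (W u) / (Real.sqrt N : ℝ)).im := by
      rw [hy]
      refine le_trans ?_ hyE
      gcongr
    have h1 := hC2 _ hyc
    rw [hy] at h1
    have h2 : ‖F (I * cexp (W u) / (Real.sqrt N : ℝ))‖ ^ 2 ≤ C2 ^ 2 * Real.exp (-(a * E)) := by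
      calc ‖F (I * cexp (W u) / (Real.sqrt N : ℝ))‖ ^ 2
          ≤ (C2 * Real.exp (-(2 * Real.pi * (Real.exp u * Real.sin δ / q)))) ^ 2 := by gcongr
        _ = C2 ^ 2 * Real.exp (-(4 * Real.pi * (Real.exp u * Real.sin δ / q))) := by
            rw [mul_pow, ← Real.exp_nat_mul]
            congr 2
            push_cast
            ring
        _ ≤ C2 ^ 2 * Real.exp (-(a * E)) := by
            have h3 : a * E ≤ 4 * Real.pi * (Real.exp u * Real.sin δ / q) := by
              calc a * E = 4 * Real.pi * (E / (2 * q)) := by rw [ha]; field_simp; ring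
                _ ≤ _ := by gcongr
            gcongr
    have h3 : Real.exp (k * u) = E ^ k * D := by
      rw [hD', hE, mul_pow, ← Real.exp_nat_mul]
      field_simp
    have h4 : Real.exp (L - u) = E⁻¹ := by
      rw [Real.exp_sub, hLe, hE]
      field_simp
    have h5 : E ^ (k + 1) * Real.exp (-(a * E)) ≤ (k + 1).factorial / a ^ (k + 1) := by
      have h6 := Real.pow_div_factorial_le_exp (a * E) (by positivity) (k + 1)
      rw [div_le_iff₀ (by positivity), mul_pow] at h6
      rw [le_div_iff₀ (by positivity), Real.exp_neg]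
      have h7 := Real.exp_pos (a * E)
      rw [mul_right_comm, ← div_eq_mul_inv, div_le_iff₀ h7]
      linarith
    rw [h3, h4]
    have hE0 : 0 < E := by linarith
    calc ‖κ‖ ^ 2 * ‖F (I * cexp (W u) / (Real.sqrt N : ℝ))‖ ^ 2 * (E ^ k * D)
        ≤ ‖κ‖ ^ 2 * (C2 ^ 2 * Real.exp (-(a * E))) * (E ^ k * D) := by gcongr
      _ = ‖κ‖ ^ 2 * C2 ^ 2 * (E ^ (k + 1) * Real.exp (-(a * E))) * D * E⁻¹ := by
          have h8 : E ^ (k + 1) * E⁻¹ = E ^ k := by
            rw [pow_succ, mul_assoc, mul_inv_cancel₀ hE0.ne', mul_one]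
          rw [← h8]; ring
      _ ≤ ‖κ‖ ^ 2 * C2 ^ 2 * ((k + 1).factorial / a ^ (k + 1)) * D * E⁻¹ := by gcongr
      _ = C4 * D * E⁻¹ := by rw [hC4]
  -- symmetry
  have hsym : ∀ u, ‖Km N k F κ (W u)‖ = ‖Km N k F κ (W (-u))‖ := by
    intro u
    have h1 := herm_strip' (K := Km N k F κ) (α := Real.pi / 2) (by positivity)
      (fun w hw => diffK h w hw) h.herm (W u) (hWs u)
    have h2 : -conj (W u) = W (-u) := by
      apply Complex.ext
      · rw [Complex.neg_re, Complex.conj_re, hWre, hWre]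
      · rw [Complex.neg_im, Complex.conj_im, hWim, hWim, neg_neg]
    rw [h2] at h1
    rw [h1, Complex.norm_conj]
  have hBb' : ∀ u, u ≤ -L → ‖Km N k F κ (W u)‖ ^ 2 ≤ C4 * D * Real.exp (L + u) := by
    intro u hu
    rw [hsym u]
    have h1 := hBb (-u) (by linarith)
    rwa [sub_neg_eq_add] at h1
  constructor
  · have h1 : ∫ u : ℝ, ‖Km N k F κ (W u)‖ ^ 2 / (1 + u ^ 2) ≤
        ∫ u : ℝ, (C1 * D) * (1 + u ^ 2)⁻¹ := by
      apply integral_mono_of_nonneg
      · exact Eventually.of_forall fun u => by positivity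
      · exact integrable_inv_one_add_sq.const_mul _
      · refine Eventually.of_forall fun u => ?_
        simp only
        rw [div_eq_mul_inv]
        have := hA u
        gcongr
    rw [integral_const_mul, integral_univ_inv_one_add_sq] at h1
    refine h1.trans ?_
    have h2 : 0 ≤ (2 * C1 + 2 * C4 + 1) * D := by positivity
    nlinarith
  · set g1 : ℝ → ℝ := (Set.Icc (-L) L).indicator fun _ => C1 * D
    set g2 : ℝ → ℝ := (Set.Ioi L).indicator fun u => C4 * D * Real.exp L * Real.exp (-u)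
    set g3 : ℝ → ℝ := (Set.Iic (-L)).indicator fun u => C4 * D * Real.exp L * Real.exp u
    have i1 : Integrable g1 := by
      rw [integrable_indicator_iff measurableSet_Icc]
      exact integrableOn_const (by simp)
    have i2 : Integrable g2 := by
      rw [integrable_indicator_iff measurableSet_Ioi]
      exact (integrableOn_exp_neg_Ioi L).const_mul _
    have i3 : Integrable g3 := by
      rw [integrable_indicator_iff measurableSet_Iic]
      exact (integrableOn_exp_Iic (-L)).const_mul _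
    have e1 : ∫ u, g1 u = 2 * L * (C1 * D) := by
      rw [integral_indicator measurableSet_Icc, setIntegral_const]
      simp only [Real.volume_real_Icc, smul_eq_mul]
      rw [max_eq_left (by linarith)]
      ring
    have e2 : ∫ u, g2 u = C4 * D := by
      rw [integral_indicator measurableSet_Ioi, integral_const_mul, integral_exp_neg_Ioi,
        mul_assoc, ← Real.exp_add]
      simp
    have e3 : ∫ u, g3 u = C4 * D := by
      rw [integral_indicator measurableSet_Iic, integral_const_mul, integral_exp_Iic,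
        mul_assoc, ← Real.exp_add]
      simp
    have h1 : ∫ u : ℝ, ‖Km N k F κ (W u)‖ ^ 2 ≤ ∫ u : ℝ, (g1 u + g2 u + g3 u) := by
      apply integral_mono_of_nonneg
      · exact Eventually.of_forall fun u => by positivity
      · exact (i1.add i2).add i3
      · refine Eventually.of_forall fun u => ?_
        simp only
        have n1 : 0 ≤ g1 u := Set.indicator_nonneg (fun _ _ => by positivity) _
        have n2 : 0 ≤ g2 u := Set.indicator_nonneg (fun _ _ => by positivity) _
        have n3 : 0 ≤ g3 u := Set.indicator_nonneg (fun _ _ => by positivity) _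
        rcases le_or_gt u (-L) with hu | hu
        · have h2 := hBb' u hu
          have h3 : g3 u = C4 * D * Real.exp L * Real.exp u :=
            Set.indicator_of_mem (s := Set.Iic (-L)) hu _
          rw [Real.exp_add, ← mul_assoc] at h2
          linarith
        · rcases le_or_gt u L with hu2 | hu2
          · have h2 := hA u
            have h3 : g1 u = C1 * D := Set.indicator_of_mem (s := Set.Icc (-L) L) ⟨hu.le, hu2⟩ _
            linarith
          · have h2 := hBb u hu2.le
            have h3 : g2 u = C4 * D * Real.exp L * Real.exp (-u) :=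
              Set.indicator_of_mem (s := Set.Ioi L) hu2 _
            rw [sub_eq_add_neg, Real.exp_add, ← mul_assoc] at h2
            linarith
    have e4 : ∫ u : ℝ, (g1 u + g2 u + g3 u) = (∫ u, g1 u) + (∫ u, g2 u) + ∫ u, g3 u := by
      rw [← integral_add i1 i2]
      exact integral_add (i1.add i2) i3
    rw [e4, e1, e2, e3] at h1
    refine h1.trans ?_
    have h2 : C4 * D ≤ C4 * D * L := le_mul_of_one_le_right (by positivity) hL1
    have h3 : 0 ≤ (Real.pi * C1 + 1) * D * L := by positivity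
    nlinarith

end Pool.Agent.N455.GN
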